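import Mathlib.Combinatorics.SimpleGraph.Finite
import Mathlib.Combinatorics.SimpleGraph.Connectivity.Connected
import Mathlib.Order.SymmDiff
import Pool.Agent.Q255.EvenDecomp

/-!
# Odd-regular graphs decompose into at most `n - 1` 2-regular graphs and edges (MP_b4b0f8_co)
-/

namespace Pool.Agent.Results.MP_b4b0f8_co.OddRegular

open Finset Relation Pool.Agent.Q255.EvenDecomp

set_option linter.unusedSectionVars false

variable {V : Type} [Fintype V] [DecidableEq V]

/-- `P` is a decomposition of `G` into subgraphs each of which is 2-regular or a single edge: the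
members of `P` are nonempty pairwise disjoint sets of edges whose union is the edge set of `G`, and
each member either has exactly one element or is `TwoRegular`. -/
def IsDecomposition (G : SimpleGraph V) (P : Finset (Finset (Sym2 V))) : Prop :=
  (∀ E ∈ P, E.Nonempty) ∧ (∀ E ∈ P, ∀ E' ∈ P, E ≠ E' → Disjoint E E') ∧
    (∀ e, e ∈ G.edgeSet ↔ ∃ E ∈ P, e ∈ E) ∧ ∀ E ∈ P, TwoRegular E ∨ E.card = 1

/-! ### Removing an edge from a connected set -/

/-- Adjacency inside `W`. -/
def R (G : SimpleGraph V) (W : Finset V) (a b : V) : Prop := G.Adj a b ∧ a ∈ W ∧ b ∈ W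

/-- `W` induces a connected graph. -/
def ConnOn (G : SimpleGraph V) (W : Finset V) : Prop :=
  ∀ x ∈ W, ∀ y ∈ W, ReflTransGen (R G W) x y

theorem R_symm {G : SimpleGraph V} {W : Finset V} {a b : V} (h : R G W a b) : R G W b a :=
  ⟨h.1.symm, h.2.2, h.2.1⟩

theorem rtg_symm {G : SimpleGraph V} {W : Finset V} {a b : V} (h : ReflTransGen (R G W) a b) :
    ReflTransGen (R G W) b a := by
  induction h with
  | refl => exact ReflTransGen.refl
  | tail _ h2 ih => exact ReflTransGen.head (R_symm h2) ih

theorem exists_exit {α : Type*} {r : α → α → Prop} {p : α → Prop} {x y : α}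
    (h : ReflTransGen r x y) (hx : p x) (hy : ¬ p y) : ∃ a b, r a b ∧ p a ∧ ¬ p b := by
  induction h with
  | refl => exact absurd hx hy
  | @tail b c _ h2 ih =>
    by_cases hb : p b
    · exact ⟨b, c, h2, hb, hy⟩
    · exact ih hb

/-- Paths as lists. -/
def P (G : SimpleGraph V) (W : Finset V) (l : List V) : Prop :=
  l.Nodup ∧ (∀ a ∈ l, a ∈ W) ∧ l.IsChain G.Adj

theorem chain_reach {G : SimpleGraph V} {W : Finset V} : ∀ (l : List V) (v : V),
    (∀ a ∈ v :: l, a ∈ W) → (v :: l).IsChain G.Adj → ∀ a ∈ v :: l, ReflTransGen (R G W) a v := by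
  intro l
  induction l with
  | nil =>
    intro v _ _ a ha
    rw [List.mem_singleton] at ha
    rw [ha]
  | cons b l ih =>
    intro v hW hch a ha
    rw [List.isChain_cons_cons] at hch
    rcases List.mem_cons.1 ha with rfl | ha
    · exact ReflTransGen.refl
    · have h1 := ih b (fun a ha => hW a (List.mem_cons_of_mem _ ha)) hch.2 a ha
      exact h1.tail ⟨hch.1.symm, hW b (by simp), hW v (by simp)⟩

theorem exists_longest {G : SimpleGraph V} {W : Finset V} :
    ∃ l, P G W l ∧ ∀ l', P G W l' → l'.length ≤ l.length := by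
  by_contra hcon
  push Not at hcon
  have h : ∀ n : ℕ, ∃ l, P G W l ∧ n ≤ l.length := by
    intro n
    induction n with
    | zero => exact ⟨[], ⟨List.nodup_nil, by simp, List.isChain_nil⟩, by simp⟩
    | succ n ih =>
      obtain ⟨l, hl, hn⟩ := ih
      obtain ⟨l', hl', hlt⟩ := hcon l hl
      exact ⟨l', hl', by omega⟩
  obtain ⟨l, hl, hn⟩ := h (W.card + 1)
  have h1 : l.toFinset ⊆ W := by
    intro a ha
    exact hl.2.1 a (List.mem_toFinset.1 ha)
  have h2 := card_le_card h1
  rw [List.toFinset_card_of_nodup hl.1] at h2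
  omega

theorem nbr_mem {G : SimpleGraph V} {W : Finset V} {v : V} {t : List V} (h : P G W (v :: t))
    (hmax : ∀ l', P G W l' → l'.length ≤ (v :: t).length) {y : V} (hy : y ∈ W)
    (hadj : G.Adj v y) : y ∈ t := by
  by_contra hyt
  have hne : y ≠ v := hadj.ne'
  have hP : P G W (y :: v :: t) := by
    refine ⟨?_, ?_, ?_⟩
    · rw [List.nodup_cons]
      refine ⟨?_, h.1⟩
      rw [List.mem_cons]
      push Not
      exact ⟨hne, hyt⟩
    · intro a ha
      rcases List.mem_cons.1 ha with rfl | ha
      · exact hy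
      · exact h.2.1 a ha
    · rw [List.isChain_cons_cons]
      exact ⟨hadj.symm, h.2.2⟩
  have := hmax _ hP
  simp only [List.length_cons] at this
  omega

theorem exists_pair {G : SimpleGraph V} [DecidableRel G.Adj] {W : Finset V} (hne : W.Nonempty)
    (hconn : ConnOn G W) (hdeg : ∀ x ∈ W, 2 ≤ (W.filter (fun y => G.Adj x y)).card) :
    ∃ x y, x ∈ W ∧ y ∈ W ∧ G.Adj x y ∧ ((W.erase x).erase y).Nonempty ∧
      ConnOn G ((W.erase x).erase y) := by
  classical
  obtain ⟨l, hl, hmax⟩ := exists_longest (G := G) (W := W)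
  have hsing : ∀ w ∈ W, P G W [w] := by
    intro w hw
    exact ⟨List.nodup_singleton w, by simpa using hw, List.isChain_singleton w⟩
  have hlen : l ≠ [] := by
    rintro rfl
    obtain ⟨w, hw⟩ := hne
    have := hmax [w] (hsing w hw)
    simp at this
  rcases l with _ | ⟨v0, t⟩
  · exact absurd rfl hlen
  have hv0 : v0 ∈ W := hl.2.1 v0 (by simp)
  have htsub : (W.filter (fun y => G.Adj v0 y)) ⊆ t.toFinset := by
    intro y hy
    rw [mem_filter] at hy
    rw [List.mem_toFinset]
    exact nbr_mem hl hmax hy.1 hy.2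
  have htcard : 2 ≤ t.length :=
    (hdeg v0 hv0).trans ((card_le_card htsub).trans (List.toFinset_card_le t))
  rcases t with _ | ⟨v1, t⟩
  · simp at htcard
  rcases t with _ | ⟨v2, t⟩
  · simp at htcard
  have hnd := hl.1
  have hmemW := hl.2.1
  have hch := hl.2.2
  rw [List.isChain_cons_cons] at hch
  obtain ⟨h01, hch1⟩ := hch
  have hch1' := hch1
  rw [List.isChain_cons_cons] at hch1
  obtain ⟨h12, hch2⟩ := hch1
  have hv1 : v1 ∈ W := hmemW v1 (by simp)
  have hv2 : v2 ∈ W := hmemW v2 (by simp)
  rw [List.nodup_cons] at hnd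
  obtain ⟨hn0, hnd1⟩ := hnd
  have hnd1' := hnd1
  rw [List.nodup_cons] at hnd1
  obtain ⟨hn1, hnd2⟩ := hnd1
  set W' := (W.erase v0).erase v1 with hW'
  have hmemW' : ∀ a, a ∈ W' ↔ a ≠ v1 ∧ a ≠ v0 ∧ a ∈ W := by
    intro a
    rw [hW', mem_erase, mem_erase]
  have htail : ∀ a ∈ v2 :: t, a ∈ W' := by
    intro a ha
    rw [hmemW']
    refine ⟨?_, ?_, hmemW a (by simp only [List.mem_cons] at ha ⊢; tauto)⟩
    · rintro rfl
      exact hn1 ha
    · rintro rfl
      exact hn0 (List.mem_cons_of_mem _ ha)
  have hreachD : ∀ a ∈ v2 :: t, ReflTransGen (R G W') a v2 := chain_reach t v2 htail hch2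
  have hall : ∀ z ∈ W', ReflTransGen (R G W') z v2 := by
    intro z hz
    by_contra hzD
    have hzW : z ∈ W := ((hmemW' z).1 hz).2.2
    obtain ⟨a, b, hab, ⟨haW', haD⟩, hb⟩ := exists_exit
      (p := fun a => a ∈ W' ∧ ¬ ReflTransGen (R G W') a v2) (hconn z hzW v2 hv2) ⟨hz, hzD⟩
      (fun h => h.2 ReflTransGen.refl)
    have haD' : ∀ c ∈ v2 :: t, ¬ G.Adj a c := by
      intro c hc hac
      exact haD (ReflTransGen.head ⟨hac, haW', htail c hc⟩ (hreachD c hc))
    have hat : a ∉ v2 :: t := fun h => haD (hreachD a h)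
    have ha := (hmemW' a).1 haW'
    have hbW : b ∈ W := hab.2.2
    by_cases hbW' : b ∈ W'
    · have hbD : ReflTransGen (R G W') b v2 := by
        by_contra h
        exact hb ⟨hbW', h⟩
      exact haD (ReflTransGen.head ⟨hab.1, haW', hbW'⟩ hbD)
    · have hb01 : b = v1 ∨ b = v0 := by
        rw [hmemW'] at hbW'
        tauto
      rcases hb01 with rfl | rfl
      · -- `a` is adjacent to `v1`
        have hP : P G W (a :: b :: v2 :: t) := by
          refine ⟨?_, ?_, ?_⟩
          · rw [List.nodup_cons]
            refine ⟨?_, hnd1'⟩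
            rw [List.mem_cons]
            push Not
            exact ⟨ha.1, hat⟩
          · intro c hc
            rcases List.mem_cons.1 hc with rfl | hc
            · exact ha.2.2
            · exact hmemW c (List.mem_cons_of_mem _ hc)
          · rw [List.isChain_cons_cons]
            exact ⟨hab.1, hch1'⟩
        obtain ⟨c, hc, hcb⟩ := exists_mem_ne (lt_of_lt_of_le one_lt_two (hdeg a ha.2.2)) b
        rw [mem_filter] at hc
        have hct := nbr_mem hP (fun l' h' => hmax l' h') hc.1 hc.2
        rcases List.mem_cons.1 hct with h | h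
        · exact hcb h
        · exact haD' c h hc.2
      · have h1 := nbr_mem hl hmax ha.2.2 hab.1.symm
        rcases List.mem_cons.1 h1 with h | h
        · exact ha.1 h
        · exact hat h
  refine ⟨v0, v1, hv0, hv1, h01, ⟨v2, htail v2 (by simp)⟩, ?_⟩
  intro x hx y hy
  exact (hall x hx).trans (rtg_symm (hall y hy))

/-! ### Parity -/

/-- Parity of the degrees. -/
def par (F : Finset (Sym2 V)) (x : V) : ZMod 2 := ∑ e ∈ F, if x ∈ e then 1 else 0

theorem par_eq (F : Finset (Sym2 V)) (x : V) : par F x = (dg F x : ZMod 2) := by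
  unfold par dg
  rw [card_filter]
  push_cast
  rfl

theorem par_union {A B : Finset (Sym2 V)} (h : Disjoint A B) (x : V) :
    par (A ∪ B) x = par A x + par B x := sum_union h

theorem zmod2_add_self (a : ZMod 2) : a + a = 0 := by
  revert a
  decide

theorem par_symmDiff (A B : Finset (Sym2 V)) (x : V) :
    par (symmDiff A B) x = par A x + par B x := by
  have h1 : symmDiff A B = (A \ B) ∪ (B \ A) := rfl
  have h2 : Disjoint (A \ B) (B \ A) := disjoint_sdiff_sdiff
  have h3 : par A x = par (A \ B) x + par (A ∩ B) x := by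
    rw [← par_union (disjoint_sdiff_inter A B), sdiff_union_inter]
  have h4 : par B x = par (B \ A) x + par (A ∩ B) x := by
    rw [inter_comm, ← par_union (disjoint_sdiff_inter B A), sdiff_union_inter]
  rw [h1, par_union h2, h3, h4]
  have := zmod2_add_self (par (A ∩ B) x)
  linear_combination -this

theorem sum_par {F : Finset (Sym2 V)} (hF : ∀ e ∈ F, ¬ e.IsDiag) : ∑ x, par F x = 0 := by
  simp_rw [par_eq]
  rw [← Nat.cast_sum, sum_dg hF, Nat.cast_mul]
  have : ((2 : ℕ) : ZMod 2) = 0 := rfl
  rw [this, zero_mul]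

theorem par_single {b c : V} (h : b ≠ c) (z : V) :
    par {s(b, c)} z = (if z = b then 1 else 0) + (if z = c then 1 else 0) := by
  unfold par
  rw [sum_singleton]
  by_cases hb : z = b
  · subst hb
    simp [h]
  · by_cases hc : z = c
    · subst hc
      simp [hb]
    · simp [hb, hc]

/-- The edges of `F` are edges of `G` inside `W`. -/
def Good (G : SimpleGraph V) (W : Finset V) (F : Finset (Sym2 V)) : Prop :=
  ∀ e ∈ F, e ∈ G.edgeSet ∧ ∀ x ∈ e, x ∈ W

theorem Good.not_diag {G : SimpleGraph V} {W : Finset V} {F : Finset (Sym2 V)} (h : Good G W F) :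
    ∀ e ∈ F, ¬ e.IsDiag := fun e he => G.not_isDiag_of_mem_edgeSet (h e he).1

theorem Good.par_zero {G : SimpleGraph V} {W : Finset V} {F : Finset (Sym2 V)} (h : Good G W F)
    {x : V} (hx : x ∉ W) : dg F x = 0 := by
  unfold dg
  rw [card_eq_zero, filter_eq_empty_iff]
  intro e he hxe
  exact hx ((h e he).2 x hxe)

theorem toggle_path {G : SimpleGraph V} {W : Finset V} {x y : V} (h : ReflTransGen (R G W) x y)
    {F : Finset (Sym2 V)} (hF : Good G W F) : ∃ F', Good G W F' ∧
      ∀ z, par F' z = par F z + ((if z = x then 1 else 0) + (if z = y then 1 else 0)) := by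
  induction h with
  | refl =>
    refine ⟨F, hF, fun z => ?_⟩
    rw [zmod2_add_self, add_zero]
  | @tail b c _ h2 ih =>
    obtain ⟨F', hF', hp⟩ := ih
    refine ⟨symmDiff F' {s(b, c)}, ?_, fun z => ?_⟩
    · intro e he
      rw [mem_symmDiff, mem_singleton] at he
      rcases he with ⟨h, _⟩ | ⟨h, _⟩
      · exact hF' e h
      · rw [h]
        refine ⟨h2.1, ?_⟩
        intro x hx
        rw [Sym2.mem_iff] at hx
        rcases hx with rfl | rfl
        · exact h2.2.1
        · exact h2.2.2
    · rw [par_symmDiff, hp, par_single h2.1.ne]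
      have := zmod2_add_self (if z = b then (1 : ZMod 2) else 0)
      linear_combination this

theorem exists_join {G : SimpleGraph V} {W : Finset V} (hW : ConnOn G W) : ∀ (n : ℕ)
    (S : Finset V), S.card = 2 * n → S ⊆ W → ∃ F, Good G W F ∧
      ∀ z, par F z = if z ∈ S then 1 else 0 := by
  intro n
  induction n with
  | zero =>
    intro S hS _
    have : S = ∅ := by
      rw [← card_eq_zero]
      omega
    subst this
    exact ⟨∅, by intro e he; simp at he, by intro z; simp [par]⟩
  | succ n ih =>
    intro S hS hSW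
    obtain ⟨x, hx, y, hy, hxy⟩ := one_lt_card.1 (show 1 < S.card by omega)
    have hy' : y ∈ S.erase x := mem_erase.2 ⟨hxy.symm, hy⟩
    obtain ⟨F, hF, hp⟩ := ih ((S.erase x).erase y) (by
      rw [card_erase_of_mem hy', card_erase_of_mem hx]
      omega) ((erase_subset _ _).trans ((erase_subset _ _).trans hSW))
    obtain ⟨F', hF', hp'⟩ := toggle_path (hW x (hSW hx) y (hSW hy)) hF
    refine ⟨F', hF', fun z => ?_⟩
    rw [hp', hp]
    by_cases hzx : z = x
    · subst hzx
      simp [hxy, hx]
    · by_cases hzy : z = y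
      · subst hzy
        simp [hzx, hy]
      · simp [hzx, hzy]

/-- A parity join inside `U` can be chosen with fewer than `U.card` edges. -/
theorem small_join {G : SimpleGraph V} {U : Finset V} (hU : U.Nonempty) : ∀ (n : ℕ)
    (F : Finset (Sym2 V)), F.card = n → Good G U F → (∀ z, par F z = if z ∈ U then 1 else 0) →
    ∃ F', Good G U F' ∧ (∀ z, par F' z = if z ∈ U then 1 else 0) ∧ F'.card < U.card := by
  classical
  intro n
  induction n using Nat.strong_induction_on with
  | _ n ih =>
    intro F hFn hF hp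
    rcases Nat.lt_or_ge F.card U.card with hlt | hge
    · exact ⟨F, hF, hp, hlt⟩
    · obtain ⟨u0, hu0⟩ := hU
      have hcard : (univ : Finset (↥(U.erase u0) → ZMod 2)).card < F.powerset.card := by
        rw [card_powerset, card_univ, Fintype.card_fun, ZMod.card, Fintype.card_coe,
          card_erase_of_mem hu0]
        apply Nat.pow_lt_pow_right (by norm_num)
        have : 0 < U.card := card_pos.2 ⟨u0, hu0⟩
        omega
      obtain ⟨A, hA, B, hB, hAB, heq⟩ := exists_ne_map_eq_of_card_lt_of_maps_to hcard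
        (f := fun A => fun z : ↥(U.erase u0) => par A z) (fun _ _ => mem_univ _)
      rw [mem_powerset] at hA hB
      have hAG : Good G U A := fun e he => hF e (hA he)
      have hBG : Good G U B := fun e he => hF e (hB he)
      have hdiff : ∀ z, z ≠ u0 → par A z = par B z := by
        intro z hz
        by_cases hzU : z ∈ U
        · exact congrFun heq ⟨z, mem_erase.2 ⟨hz, hzU⟩⟩
        · rw [par_eq, par_eq, hAG.par_zero hzU, hBG.par_zero hzU]
      have hu : par A u0 = par B u0 := by
        have h1 : ∑ x, (par A x - par B x) = 0 := by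
          rw [sum_sub_distrib, sum_par hAG.not_diag, sum_par hBG.not_diag, sub_zero]
        rw [sum_eq_single u0 (fun b _ hb => by rw [hdiff b hb, sub_self])
          (fun h => absurd (mem_univ _) h)] at h1
        exact sub_eq_zero.1 h1
      have hall : ∀ z, par A z = par B z := by
        intro z
        by_cases hz : z = u0
        · rw [hz]
          exact hu
        · exact hdiff z hz
      let D := symmDiff A B
      have hDp : ∀ z, par D z = 0 := by
        intro z
        rw [par_symmDiff, hall z, zmod2_add_self]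
      have hDF : D ⊆ F := by
        intro e he
        rw [mem_symmDiff] at he
        rcases he with ⟨h, _⟩ | ⟨h, _⟩
        · exact hA h
        · exact hB h
      have hDne : D.Nonempty := by
        rw [nonempty_iff_ne_empty]
        intro h
        exact hAB (symmDiff_eq_bot.1 h)
      have hlt : (F \ D).card < n := by
        rw [card_sdiff_of_subset hDF]
        have h1 := card_pos.2 hDne
        have h2 := card_le_card hDF
        omega
      refine ih _ hlt (F \ D) rfl (fun e he => hF e (mem_sdiff.1 he).1) (fun z => ?_)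
      rw [← hp z]
      have h1 : par (F \ D) z + par D z = par F z := sum_sdiff hDF
      rw [hDp, add_zero] at h1
      exact h1

/-! ### Assembly -/

theorem dg_edgeFinset (G : SimpleGraph V) [DecidableRel G.Adj] (x : V) :
    dg G.edgeFinset x = G.degree x := by
  unfold dg
  rw [← G.card_incidenceFinset_eq_degree, G.incidenceFinset_eq_filter]

/-- Iterated removal of pairs. -/
theorem exists_pairs {G : SimpleGraph V} [DecidableRel G.Adj] {k : ℕ}
    (hG : G.IsRegularOfDegree (2 * k + 1)) {C : Finset V} (hC : C.Nonempty)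
    (hcl : ∀ x ∈ C, ∀ y, G.Adj x y → y ∈ C) (hconn : ConnOn G C) : ∀ j, j ≤ k →
    ∃ (W : Finset V) (M : Finset (Sym2 V)), W ⊆ C ∧ W.Nonempty ∧ ConnOn G W ∧
      (∀ e ∈ M, e ∈ G.edgeSet) ∧ M.card = j ∧ W.card + 2 * j = C.card ∧
      ∀ x, dg M x = if x ∈ C \ W then 1 else 0 := by
  intro j
  induction j with
  | zero =>
    intro _
    refine ⟨C, ∅, Subset.rfl, hC, hconn, by simp, rfl, by omega, fun x => ?_⟩
    simp [dg]
  | succ j ih =>
    intro hj
    obtain ⟨W, M, hWC, hWne, hWc, hM, hMc, hcard, hdg⟩ := ih (by omega)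
    have hdeg : ∀ x ∈ W, 2 ≤ (W.filter (fun y => G.Adj x y)).card := by
      intro x hx
      have h1 : (G.neighborFinset x).card = 2 * k + 1 := hG x
      have h2 : G.neighborFinset x ⊆ (W.filter (fun y => G.Adj x y)) ∪ (C \ W) := by
        intro y hy
        rw [SimpleGraph.mem_neighborFinset] at hy
        have hyC := hcl x (hWC hx) y hy
        rw [mem_union, mem_filter, mem_sdiff]
        by_cases h : y ∈ W
        · exact Or.inl ⟨h, hy⟩
        · exact Or.inr ⟨hyC, h⟩
      have h3 := (card_le_card h2).trans (card_union_le _ _)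
      rw [card_sdiff_of_subset hWC] at h3
      omega
    obtain ⟨x, y, hx, hy, hxy, hne', hconn'⟩ := exists_pair hWne hWc hdeg
    have hyx : y ∈ W.erase x := mem_erase.2 ⟨hxy.ne', hy⟩
    have hnotM : s(x, y) ∉ M := by
      intro h
      have h1 := hdg x
      rw [if_neg (by simp [hx])] at h1
      unfold dg at h1
      rw [card_eq_zero, filter_eq_empty_iff] at h1
      exact h1 h (by simp)
    refine ⟨(W.erase x).erase y, insert s(x, y) M,
      (erase_subset _ _).trans ((erase_subset _ _).trans hWC), hne', hconn', ?_, ?_, ?_, ?_⟩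
    · intro e he
      rw [mem_insert] at he
      rcases he with rfl | he
      · exact hxy
      · exact hM e he
    · rw [card_insert_of_notMem hnotM, hMc]
    · rw [card_erase_of_mem hyx, card_erase_of_mem hx]
      have h1 : 0 < (W.erase x).card := card_pos.2 ⟨y, hyx⟩
      rw [card_erase_of_mem hx] at h1
      omega
    · intro z
      have h1 : dg (insert s(x, y) M) z = dg M z + if z ∈ s(x, y) then 1 else 0 := by
        unfold dg
        rw [filter_insert]
        split_ifs with h
        · rw [card_insert_of_notMem]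
          intro h'
          exact hnotM (mem_filter.1 h').1
        · rfl
      rw [h1, hdg]
      have hxC := hWC hx
      have hyC := hWC hy
      by_cases hzx : z = x
      · subst hzx
        simp [hx, hxC]
      · by_cases hzy : z = y
        · subst hzy
          simp [hy, hyC]
        · simp [hzx, hzy]

/-- A `(2k+1)`-regular nonempty graph with `n` vertices decomposes into at most `n - 1`
2-regular graphs and single edges. -/
theorem result (k : ℕ) (V : Type) [Fintype V] [DecidableEq V] [Nonempty V] (G : SimpleGraph V)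
    [DecidableRel G.Adj] (hG : G.IsRegularOfDegree (2 * k + 1)) :
    ∃ P : Finset (Finset (Sym2 V)), IsDecomposition G P ∧ P.card ≤ Fintype.card V - 1 := by
  classical
  obtain ⟨v0⟩ := ‹Nonempty V›
  let C : Finset V := univ.filter (fun x => G.Reachable v0 x)
  have hmemC : ∀ x, x ∈ C ↔ G.Reachable v0 x := by
    intro x
    simp [C]
  have hcl : ∀ x ∈ C, ∀ y, G.Adj x y → y ∈ C := by
    intro x hx y hxy
    rw [hmemC] at hx ⊢
    exact hx.trans hxy.reachable
  have hv0C : v0 ∈ C := by
    rw [hmemC]
  have hconn : ConnOn G C := by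
    have h1 : ∀ x ∈ C, ReflTransGen (R G C) v0 x := by
      intro x hx
      rw [hmemC, SimpleGraph.reachable_iff_reflTransGen] at hx
      induction hx with
      | refl => exact ReflTransGen.refl
      | @tail b c hb hbc ih =>
        have hbC : b ∈ C := by
          rw [hmemC, SimpleGraph.reachable_iff_reflTransGen]
          exact hb
        exact ih.tail ⟨hbc, hbC, hcl b hbC c hbc⟩
    intro x hx y hy
    exact (rtg_symm (h1 x hx)).trans (h1 y hy)
  -- edges inside a closed set
  have hpar_closed : ∀ S : Finset V, (∀ x ∈ S, ∀ y, G.Adj x y → y ∈ S) →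
      Good G S (G.edgeFinset.filter (fun e => ∀ x ∈ e, x ∈ S)) ∧
      ∀ z, par (G.edgeFinset.filter (fun e => ∀ x ∈ e, x ∈ S)) z = if z ∈ S then 1 else 0 := by
    intro S hS
    have hgood : Good G S (G.edgeFinset.filter (fun e => ∀ x ∈ e, x ∈ S)) := by
      intro e he
      rw [mem_filter, SimpleGraph.mem_edgeFinset] at he
      exact he
    refine ⟨hgood, fun z => ?_⟩
    by_cases hz : z ∈ S
    · rw [if_pos hz, par_eq]
      have : dg (G.edgeFinset.filter (fun e => ∀ x ∈ e, x ∈ S)) z = dg G.edgeFinset z := by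
        unfold dg
        congr 1
        ext e
        rw [mem_filter, mem_filter, mem_filter]
        constructor
        · rintro ⟨⟨h1, _⟩, h2⟩
          exact ⟨h1, h2⟩
        · rintro ⟨h1, h2⟩
          refine ⟨⟨h1, ?_⟩, h2⟩
          obtain ⟨w, rfl⟩ := Sym2.mem_iff_exists.1 h2
          rw [SimpleGraph.mem_edgeFinset, SimpleGraph.mem_edgeSet] at h1
          intro x hx
          rw [Sym2.mem_iff] at hx
          rcases hx with rfl | rfl
          · exact hz
          · exact hS z hz _ h1
      rw [this, dg_edgeFinset, hG z]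
      push_cast
      have h2 : (2 : ZMod 2) = 0 := rfl
      rw [h2, zero_mul, zero_add]
    · rw [if_neg hz, par_eq, hgood.par_zero hz]
      rfl
  have hCeven : Even C.card := by
    obtain ⟨hg, hp⟩ := hpar_closed C hcl
    have h1 := sum_par hg.not_diag
    simp_rw [hp] at h1
    rw [sum_ite_mem, univ_inter, sum_const, nsmul_eq_mul, mul_one] at h1
    exact (ZMod.natCast_eq_zero_iff_even).1 h1
  obtain ⟨W, M, hWC, hWne, hWc, hM, hMc, hcard, hdgM⟩ :=
    exists_pairs hG ⟨v0, hv0C⟩ hcl hconn k le_rfl
  obtain ⟨n, hn⟩ : ∃ n, W.card = 2 * n := by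
    obtain ⟨m, hm⟩ := hCeven
    exact ⟨m - k, by omega⟩
  obtain ⟨F1, hF1, hp1⟩ := exists_join hWc n W hn Subset.rfl
  obtain ⟨hF2, hp2⟩ := hpar_closed (univ \ C) (by
    intro x hx y hxy
    rw [mem_sdiff] at hx ⊢
    refine ⟨mem_univ _, fun hy => hx.2 ?_⟩
    exact hcl y hy x hxy.symm)
  set F2 := G.edgeFinset.filter (fun e => ∀ x ∈ e, x ∈ univ \ C) with hF2def
  let U : Finset V := univ \ (C \ W)
  have hmemU : ∀ x, x ∈ U ↔ (x ∈ W ∨ x ∉ C) := by
    intro x
    simp only [U, mem_sdiff, mem_univ, true_and]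
    tauto
  have hdisj12 : Disjoint F1 F2 := by
    rw [disjoint_left]
    intro e h1 h2
    induction e with
    | _ a b =>
      have h3 := (hF1 _ h1).2 a (by simp)
      have h4 := (hF2 _ h2).2 a (by simp)
      rw [mem_sdiff] at h4
      exact h4.2 (hWC h3)
  have hgood3 : Good G U (F1 ∪ F2) := by
    intro e he
    rw [mem_union] at he
    rcases he with h | h
    · exact ⟨(hF1 e h).1, fun x hx => (hmemU x).2 (Or.inl ((hF1 e h).2 x hx))⟩
    · refine ⟨(hF2 e h).1, fun x hx => (hmemU x).2 (Or.inr ?_)⟩
      have := (hF2 e h).2 x hx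
      rw [mem_sdiff] at this
      exact this.2
  have hp3 : ∀ z, par (F1 ∪ F2) z = if z ∈ U then 1 else 0 := by
    intro z
    rw [par_union hdisj12, hp1, hp2]
    by_cases h1 : z ∈ W
    · have h2 : z ∈ C := hWC h1
      rw [if_pos h1, if_neg (by simp [h2]), if_pos ((hmemU z).2 (Or.inl h1)), add_zero]
    · by_cases h2 : z ∈ C
      · rw [if_neg h1, if_neg (by simp [h2]), if_neg (by rw [hmemU]; tauto), add_zero]
      · rw [if_neg h1, if_pos (by simp [h2]), if_pos ((hmemU z).2 (Or.inr h2)), zero_add]
  obtain ⟨w0, hw0⟩ := hWne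
  obtain ⟨F, hF, hp, hFc⟩ := small_join ⟨w0, (hmemU w0).2 (Or.inl hw0)⟩ _ _ rfl hgood3 hp3
  have hUcard : U.card + 2 * k = Fintype.card V := by
    have h1 : U.card = Fintype.card V - (C \ W).card := by
      rw [← card_univ, ← card_sdiff_of_subset (subset_univ _)]
    have h2 := card_sdiff_of_subset hWC
    have h3 : C.card ≤ Fintype.card V := card_le_univ C
    omega
  have hMF : Disjoint M F := by
    rw [disjoint_left]
    intro e h1 h2
    induction e with
    | _ a b =>
      have h3 := (hmemU a).1 ((hF _ h2).2 a (by simp))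
      have h4 : 0 < dg M a := card_pos.2 ⟨s(a, b), mem_filter.2 ⟨h1, by simp⟩⟩
      rw [hdgM] at h4
      have h5 : a ∉ C \ W := by
        rw [mem_sdiff]
        tauto
      rw [if_neg h5] at h4
      exact lt_irrefl _ h4
  let T := M ∪ F
  have hTG : T ⊆ G.edgeFinset := by
    intro e he
    rw [SimpleGraph.mem_edgeFinset]
    rcases mem_union.1 he with h | h
    · exact hM e h
    · exact (hF e h).1
  have hdgT : ∀ x, dg T x = dg M x + dg F x := by
    intro x
    unfold dg
    rw [filter_union, card_union_of_disjoint]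
    exact disjoint_filter_filter hMF
  have hodd : ∀ x, Odd (dg T x) := by
    intro x
    rw [hdgT, hdgM]
    by_cases hx : x ∈ C \ W
    · have h1 : x ∉ U := by
        rw [hmemU]
        rw [mem_sdiff] at hx
        tauto
      rw [if_pos hx, hF.par_zero h1]
      exact odd_one
    · have h1 : x ∈ U := by
        rw [hmemU]
        rw [mem_sdiff] at hx
        tauto
      rw [if_neg hx, zero_add]
      have h2 := hp x
      rw [if_pos h1, par_eq] at h2
      exact (ZMod.natCast_eq_one_iff_odd).1 h2
  let Rr := G.edgeFinset \ T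
  have hdgR : ∀ x, dg Rr x + dg T x = 2 * k + 1 := by
    intro x
    rw [← hG x, ← dg_edgeFinset]
    unfold dg
    rw [← card_union_of_disjoint]
    · congr 1
      rw [← filter_union, sdiff_union_of_subset hTG]
    · exact disjoint_filter_filter sdiff_disjoint
  obtain ⟨E, hE1, hE2, hE3, hE4⟩ := even_decomposition (R := Rr) (k := k)
    (fun e he => G.not_isDiag_of_mem_edgeSet (SimpleGraph.mem_edgeFinset.1 (mem_sdiff.1 he).1))
    (fun x => by
      have h1 := hdgR x
      obtain ⟨m, hm⟩ := hodd x
      exact ⟨k - m, by omega⟩)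
    (fun x => by
      have h1 := hdgR x
      obtain ⟨m, hm⟩ := hodd x
      omega)
  let Q : Finset (Finset (Sym2 V)) :=
    (T.image (fun e => ({e} : Finset (Sym2 V))) ∪ univ.image E).filter (fun A => A.Nonempty)
  have hQ : ∀ A, A ∈ Q ↔ ((∃ e ∈ T, {e} = A) ∨ ∃ i, E i = A) ∧ A.Nonempty := by
    intro A
    simp only [Q, mem_filter, mem_union, mem_image, mem_univ, true_and]
  have hQcard : Q.card ≤ Fintype.card V - 1 := by
    have h1 : Q.card ≤ T.card + k := by
      refine (card_filter_le _ _).trans ((card_union_le _ _).trans ?_)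
      have h2 : (T.image (fun e => ({e} : Finset (Sym2 V)))).card ≤ T.card := card_image_le
      have h3 : (univ.image E).card ≤ k := card_image_le.trans (by simp)
      omega
    have h2 : T.card = M.card + F.card := card_union_of_disjoint hMF
    omega
  suffices hdec : IsDecomposition G Q from ⟨Q, hdec, hQcard⟩
  refine ⟨fun A hA => ((hQ A).1 hA).2, ?_, ?_, ?_⟩
  · intro A hA B hB hAB
    have hTR : ∀ e ∈ T, ∀ i, e ∉ E i := fun e he i hi => (mem_sdiff.1 (hE2 i hi)).2 he
    rcases ((hQ A).1 hA).1 with ⟨e, he, rfl⟩ | ⟨i, rfl⟩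
    · rcases ((hQ B).1 hB).1 with ⟨f, hf, rfl⟩ | ⟨j, rfl⟩
      · rw [disjoint_singleton]
        rintro rfl
        exact hAB rfl
      · rw [disjoint_singleton_left]
        exact hTR e he j
    · rcases ((hQ B).1 hB).1 with ⟨f, hf, rfl⟩ | ⟨j, rfl⟩
      · rw [disjoint_singleton_right]
        exact hTR f hf i
      · apply hE4
        rintro rfl
        exact hAB rfl
  · intro e
    constructor
    · intro he
      by_cases heT : e ∈ T
      · exact ⟨{e}, (hQ _).2 ⟨Or.inl ⟨e, heT, rfl⟩, ⟨e, by simp⟩⟩, by simp⟩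
      · obtain ⟨i, hi⟩ := hE3 e (mem_sdiff.2 ⟨SimpleGraph.mem_edgeFinset.2 he, heT⟩)
        exact ⟨E i, (hQ _).2 ⟨Or.inr ⟨i, rfl⟩, ⟨e, hi⟩⟩, hi⟩
    · rintro ⟨A, hA, heA⟩
      rcases ((hQ A).1 hA).1 with ⟨f, hf, rfl⟩ | ⟨i, rfl⟩
      · rw [mem_singleton] at heA
        rw [heA]
        exact SimpleGraph.mem_edgeFinset.1 (hTG hf)
      · exact SimpleGraph.mem_edgeFinset.1 (mem_sdiff.1 (hE2 i heA)).1
  · intro A hA
    rcases ((hQ A).1 hA).1 with ⟨f, hf, rfl⟩ | ⟨i, rfl⟩
    · right
      simp
    · left
      exact hE1 i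

end Pool.Agent.Results.MP_b4b0f8_co.OddRegular
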